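import Pool.Agent.H621.AF.DeeT

/-!
# Numerical and homological equivalence on the products of an arbitrary variety with almost all members
# of an independent family

Let `k` be a number field (or any field), and let `X_i`, `i ∈ J`, be a finite or infinite family of
smooth projective varieties over `k` which is **independent**: for every finite part `A` of the family
the monodromy group (the Zariski closure of the image of the Galois group, up to finite index) of the
product of the `X_i`, `i ∈ A`, is the product of the monodromy groups of the `X_i` over the
multiplicative group (which acts on the Tate twists). Nothing else is assumed on the monodromy groups:
they can be tori (complex multiplication), products, or any reductive groups.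

**Theorem.** Let `Z` be **any** smooth projective variety over `k`. There is a finite subset `S` of `J`
such that for all pairwise different `i_1, …, i_m ∈ J` which are not in `S`, and for all `n_r` and `s`,
for `Y = X_{i_1}^(n_1) × ⋯ × X_{i_m}^(n_m) × Z^s`:

* suppose that the Tate conjecture holds for the factors `X_{i_r}^(n_r)`, or for `Z^s` and all factors
  `X_{i_r}^(n_r)` but one. Then numerical and homological equivalence coincide on `Y` **if and only if**
  they coincide on `Z^s` and on all `X_{i_r}^(n_r)`;
* suppose that the Tate conjecture and the conjecture D hold for the factors `X_{i_r}^(n_r)` (nothing is
  assumed on `Z`), or that the conjecture D holds for all factors and the Tate conjecture for all factors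
  but one. Then every algebraic cycle on `Y` is homologically equivalent to a **sum of products of
  algebraic cycles on the factors**.

The set `S` depends only on the family and on the Galois representation `H(Z)`. For the first part the
unknown factor can be anywhere: the theorem contains the case that the Tate conjecture is known for `Z`,
and the statement for one variety `X_i` outside of `S` for which nothing is known.

For instance, let `X_i`, `i ∈ J`, be elliptic curves over `k`, one from each isogeny class over the
algebraic closure, with or without complex multiplication. This family is independent (Serre, Ribet,
Imai); the Tate conjecture and the conjecture D are known for all powers of the `X_i`. Hence for every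
variety `Z` over `k` and all elliptic curves outside of finitely many isogeny classes the conjecture D
for `X_{i_1}^(n_1) × ⋯ × X_{i_m}^(n_m) × Z^s` is equivalent to the conjecture D for `Z^s`. In
characteristic zero the conjecture D is known in dimension at most four; so it holds for the products
`X_{i_1}^(n_1) × ⋯ × X_{i_m}^(n_m) × Z`, of arbitrary dimension, with `dim Z ≤ 4`. It is not known that
the conjecture D for two varieties implies the conjecture for their product: the product has in general
many algebraic classes which are not sums of products.

## The formal statement

`W` is a Weil cohomology theory with algebraically closed coefficients (étale cohomology with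
coefficients in the closure of `ℚ_ℓ`), `Γ` is a group (the Galois group), `χ` a character (the inverse
of the cyclotomic character), and a `GVar W Γ` is a variety with an action of `Γ` on its cohomology
algebra. The classes of algebraic cycles of codimension `j` are supposed to be multiplied by `χ ^ j` by
subgroups of finite index (`RespectsCycles`). `TateConjecture χ X` says that all Tate classes (elements
of `H^(2j)(X)` which are multiplied by `χ g ^ j` by all `g` in a subgroup of finite index) are linear
combinations of classes of algebraic cycles. `ConjectureD X` says that the class of an algebraic cycle
of codimension `j` on `X` is `0` if its intersection numbers with all algebraic cycles of the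
complementary codimension are `0`. `F i` is a set of varieties, for instance the set of the powers of
`X_i`; `IsTower F Z l Y` says that `Y = X_1 × (X_2 × ( ⋯ × Z))` with `X_r ∈ F i_r`, where `l` is the
list of the pairs `(i_r, X_r)`. `CyclesSplit Z l Y` says that the class of every algebraic cycle on `Y`
is a sum of products of the pull-backs of classes of algebraic cycles on the factors.

The independence is expressed by elements of `Γ`: for every finite part `A` of `J` there is `g ∈ Γ`
such that (`IndependentFamily`)

* `g` is generic for all `X ∈ F i`, `i ∈ A` (`IsGeneric`): on every subspace of the cohomology of `X`
  which is stable under a subgroup `Δ` of finite index and which does not consist of sums of Tate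
  classes, the powers `g ^ m ∈ Δ` have an eigenvalue no power of which is a power of `χ g`;
* the groups generated by the eigenvalues of `g` on the cohomology of the varieties in `F i` are
  independent for different `i ∈ A`, modulo roots of unity and roots of powers of `χ g`
  (`IndependentModulo`).

If the monodromy groups are reductive and independent in the above sense, every `g` whose image
generates (up to finite index) a maximal torus of the monodromy group of the product has these
properties, and such elements exist, since the image of the Galois group is open (Serre, Bogomolov). The
variety `Z` enters through a finite-dimensional representation `V` of `Γ`, for instance `V = H(Z)`: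
`EigenvaluesFrom χ V F S Z'` says that the eigenvalues of all `g` on the cohomology of `Z'` are in the
group generated by `χ g`, the eigenvalues of `g` on `V` and on the cohomology of the varieties in `F i`,
`i ∈ S`; this is so for all powers of `Z`. The exceptional set `S` depends only on the family and on
`V`; it is the same set as in the file `AlmostAllFactors` of the problem `MP_938ce2_ag` on the Tate
conjecture.

## Proof

The class `c` of an algebraic cycle on `X × Y` is a Tate class, hence an equivariant map up to twist
from the dual of the cohomology of `Y` to the cohomology of `X`. Outside of the exceptional set its
image is spanned by Tate classes, so `c` is a sum of products of Tate classes (`tate_span`). If the Tate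
conjecture holds for **one** of the two factors, `c` is a combination, with coefficients in the field of
coefficients, of products of an algebraic class on this factor and of arbitrary classes on the other
one. If the conjecture D holds for this factor, dual bases of its algebraic classes with rational
intersection numbers show that `c` is a sum of products of algebraic classes; from this the conjecture D
passes from the factors to the product.
-/

open CategoryTheory AlgebraicGeometry

universe u

namespace Pool.Agent.Results.MP_f569db_ag.AlmostAllFactors

open Pool.Agent.H914 Pool.Agent.H914.VarClass Pool.Agent.H914.VarClass.Obj
  Pool.Agent.TH125.Gal Pool.Agent.H621.AF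

/-- **The conjecture D for the products of an arbitrary variety with almost all members of an
independent family.** -/
theorem result {k : Type u} [Field k] {𝒱 : VarClass k} {ops : CycleOps 𝒱}
    {W : WeilCohomology.{u, 0} ops} [IsAlgClosed W.K] {Γ : Type} [Group Γ] (χ : Γ →* W.Kˣ)
    {J : Type} (F : J → Set (GVar W Γ)) (hF : IndependentFamily χ F) (P : FinRep W.K Γ) :
    ∃ S : Finset J, ∀ Z : GVar W Γ, RespectsDegrees Z → HasPoint Z → EigenvaluesFrom χ P F S Z →
      (∀ l Y, IsTower F Z l Y → RespectsCycles χ Y) →
      ∀ (l : List (J × GVar W Γ)) (Y : GVar W Γ), IsTower F Z l Y → (∀ p ∈ l, p.1 ∉ S) →
        TateForAllButOne χ Z l →
          (ConjectureD Y ↔ ConjectureD Z ∧ ∀ p ∈ l, ConjectureD p.2) ∧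
          ((∀ p ∈ l, ConjectureD p.2) → ((∀ p ∈ l, TateConjecture χ p.2) ∨ ConjectureD Z) →
            CyclesSplit Z l Y) := by
  obtain ⟨S, hS⟩ := exists_exceptional hF P
  exact ⟨S, fun Z h1 h2 h3 hcl l Y hY hl hT => ⟨dee_tower hF hS h1 h2 h3 hcl hY hl hT,
    fun hD hDZ => split_tower hF hS h1 h2 h3 hcl hY hl hT hD hDZ⟩⟩

end Pool.Agent.Results.MP_f569db_ag.AlmostAllFactors
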