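import Pool.Agent.Helper793_Tate.TDee

/-!
# Numerical and homological equivalence on products of varieties whose Frobenius fields are separated

Let `k` be a finite field or a number field (or any field), and let `v` be **one** place of `k` at
which all varieties below have good reduction, with a residue field with `p ^ a` elements (`v` is
not needed if `k` is finite). Let `g` be the geometric Frobenius element at `v`.

We consider finitely many CM fields `K r` and Weil numbers `π r` in `K r`, divided into blocks: `b r`
is the block of `r`. A variety belongs to the block `i` if some powers of the eigenvalues of `g` on
its cohomology are products of powers of `p` and of conjugates of the `π r` with `b r = i`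
(`EigenvaluesIn`). All products and powers of varieties of one block belong to this block. The fields
`K r`, `K s` of different blocks are supposed to be separated: for instance

* one of them is an imaginary quadratic field which is not contained in the other one; or
* the degrees of their maximal real subfields are coprime and odd, and they contain no common
  imaginary quadratic field; or
* the maximal real subfield of one of them is linearly disjoint from the Galois closure of the other
  one, and they contain no common imaginary quadratic field; or
* the degree of one of them is twice a prime number, it is not contained in the Galois closure of
  the other one, and they contain no common imaginary quadratic field; or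
* any two embeddings of the two fields in the complex numbers are cross flipped.

**Theorem.** Let `Z` be any variety of the block `i₀`, let `X_1, …, X_n` be varieties of pairwise
different blocks, different from `i₀`, for which `g` is generic, and `Y = X_1 × ⋯ × X_n × Z`.

* Suppose that the Tate conjecture holds for all `X_r`, or for `Z` and all `X_r` but one. Then
  numerical and homological equivalence coincide on `Y` **if and only if** they coincide on `Z` and on
  all `X_r`.
* Suppose that the Tate conjecture and the conjecture D hold for all `X_r` (nothing is assumed on
  `Z`), or that the conjecture D holds for `Z` and all `X_r`, and the Tate conjecture for all factors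
  of `Y` but one. Then every algebraic cycle on `Y` is homologically equivalent to a **sum of products
  of algebraic cycles on the factors**.

Here `g` is generic for `X` (`IsGeneric`) if it has on every subspace of the cohomology of `X` which is
stable under a subgroup of finite index of the Galois group, and which is not contained in the span
of the Tate classes, an eigenvalue no power of which is a power of `p`. If `k` is a finite field this
is so if `g` acts semisimply on the cohomology and if no eigenvalue in an odd degree has a power
which is a power of `p`; and then the Tate conjecture for `X` implies the conjecture D for `X`.

**Example.** Let `S` be **any** surface over a finite field, and let `A` be a power of an ordinary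
elliptic curve `E` such that the imaginary quadratic field generated by the Frobenius eigenvalue of
`E` is not contained in a field generated by one Frobenius eigenvalue of `S`; or let `A` be any
product of powers of absolutely simple abelian varieties `A_r`, `dim A_r` prime or `1`, not of Weil
type, not supersingular, or with maximal angle rank, whose CM fields are separated from each other
and from the fields generated by the single Frobenius eigenvalues of `S`, or a power of an ordinary K3
surface with this property. Then homological and numerical equivalence coincide on `A × S`, in all
codimensions, though the Tate conjecture for `S` is not known: for surfaces the conjecture D is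
known, and for `A` the Tate conjecture (`MP_557161_ag.SeparatedFactors`, Tate, Zarhin). In positive
characteristic the conjecture D for a product of two varieties does not follow from the conjecture D
for the factors.

## The formal statement

`W` is a Weil cohomology theory with algebraically closed coefficients (étale cohomology with
coefficients in the closure of `ℚ_ℓ`), `Γ` is a group (the Galois group), `χ` a character (the inverse
of the cyclotomic character), and a `GVar W Γ` is a variety with an action of `Γ` on its cohomology
algebra. The classes of algebraic cycles of codimension `j` are supposed to be multiplied by `χ ^ j` by
subgroups of finite index (`RespectsCycles`). `TateConjecture χ X` says that all Tate classes (elements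
of `H^(2j)(X)` which are multiplied by `χ g ^ j` by all `g` in a subgroup of finite index) are linear
combinations of classes of algebraic cycles. `ConjectureD X` says that the class of an algebraic cycle
of codimension `j` on `X` is `0` if its intersection numbers with all algebraic cycles of the
complementary codimension are `0`. `IsTower F Z l Y` says that `Y = X_1 × (X_2 × ( ⋯ × Z))`, where the
list `l` consists of the pairs of a block and a member `X_r` of this block. `CyclesSplit Z l Y` says
that the class of every algebraic cycle on `Y` is a sum of products of the pull-backs of classes of
algebraic cycles on the factors.

## Proof and relation to other files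

As in `MP_f569db_ag.AlmostAllFactors`, where the groups generated by the eigenvalues are assumed to be
multiplicatively independent, and where finitely many unknown members of the family have to be
excluded; here the independence follows from the separation of the fields, for one given Frobenius
element, and nothing is excluded: multiplicative relations between the conjugates of Weil numbers
in separated fields split (`relation_split`), so that the class of a cycle on `X × Y` is a
combination of products of Tate classes; dual bases of algebraic classes with rational
intersection numbers show that it is a sum of products of algebraic classes. The analogue for the
Tate conjecture is `MP_021685_ag.SeparatedFrobeniusFields`.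
-/

open CategoryTheory AlgebraicGeometry NumberField

universe u

namespace Pool.Agent.Results.MP_f569db_ag.SeparatedFrobeniusFields

open Pool.Agent.H914 Pool.Agent.H914.VarClass Pool.Agent.H914.VarClass.Obj
  Pool.Agent.TH125.Gal Pool.Agent.H621.AF Pool.Agent.Helper793_Prime Pool.Agent.Helper793_Tate

/-- **The conjecture D for products of varieties with separated Frobenius fields.** -/
theorem result {k : Type u} [Field k] {𝒱 : VarClass k} {ops : CycleOps 𝒱}
    {W : WeilCohomology.{u, 0} ops} [IsAlgClosed W.K] {Γ : Type} [Group Γ] (χ : Γ →* W.Kˣ)
    (p : ℕ) [Fact p.Prime] {I J : Type} [Fintype I] (K : I → Type) [∀ r, Field (K r)]
    [∀ r, NumberField (K r)] [∀ r, IsCMField (K r)] (m : I → ℕ) (π : ∀ r, K r)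
    (hint : ∀ r, IsIntegral ℤ (π r))
    (hweil : ∀ r, ∀ φ : K r →+* ℂ, ‖φ (π r)‖ ^ 2 = (p : ℝ) ^ m r)
    (b : I → J) (hsep : ∀ r s, b r ≠ b s → Separated (K r) (K s))
    (g : Γ) (a : ℕ) (ha : 0 < a) (hg : (χ g : W.K) = (p : W.K) ^ a)
    (i₀ : J) (Z : GVar W Γ) (hZ : EigenvaluesIn p π {r | b r = i₀} g Z)
    (hcl : ∀ l Y, IsTower (blockOf χ p π b g) Z l Y → RespectsCycles χ Y)
    (l : List (J × GVar W Γ)) (Y : GVar W Γ) (hY : IsTower (blockOf χ p π b g) Z l Y)
    (hl : ∀ q ∈ l, q.1 ≠ i₀) (hT : TateForAllButOne χ Z l) :
    (ConjectureD Y ↔ ConjectureD Z ∧ ∀ q ∈ l, ConjectureD q.2) ∧
      ((∀ q ∈ l, ConjectureD q.2) → ((∀ q ∈ l, TateConjecture χ q.2) ∨ ConjectureD Z) →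
        CyclesSplit Z l Y) := by
  have hw : ∀ r, ∀ φ : K r →+* ℂ, ‖φ (π r)‖ ^ 2 = (((p : ℚ) ^ m r : ℚ) : ℝ) :=
    fun r φ => by rw [hweil r φ]; push_cast; rfl
  exact ⟨dee_separated p ha m π hint hw b hsep hg hZ hcl hY hl hT,
    split_separated p ha m π hint hw b hsep hg hZ hcl hY hl hT⟩

end Pool.Agent.Results.MP_f569db_ag.SeparatedFrobeniusFields
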