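import Pool.Agent.H802T.TwrD
import Pool.Agent.H802T.Dim

/-!
# Homological and numerical equivalence on products of powers of varieties with big and unrelated
# monodromy with arbitrary varieties of small cohomology

Let `W` be a Weil cohomology theory with algebraically closed coefficients on a class of smooth proper
varieties over a field `k` of any characteristic, with an action of a group `Γ` on the cohomology of
the varieties under consideration, with the formal properties of a Galois action. The example:
varieties over a subfield `F` of the algebraically closed field `k`, étale cohomology with coefficients
in the closure of `ℚ_ℓ`, and the Galois group of `F`, for instance for a number field `F` or a field
of functions in positive characteristic.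

Let `X_i` be finitely many varieties for which the conjecture D (numerical and homological equivalence
coincide) holds, and whose transcendental cohomology `T_i` (the orthogonal complement of all algebraic
classes) is in the middle degree and has big monodromy: the Lie algebra of the symplectic or
orthogonal group of the intersection form on `T_i` is not commutative and irreducible as a
representation of `Γ` (`Big`), and some element of `Γ` has two eigenvalues on `T_i` whose quotient
is not a root of unity (`Hyperbolic`). For example: surfaces with `H^1 = 0`, and hypersurfaces or complete
intersections of any dimension, with big monodromy; D holds for them since the algebraic classes
outside the middle degree are known, in any characteristic if the dimension is odd or two. Let the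
cohomology of `Z` be generated by representations `G_j` with forms (`GeneratedBy`; for instance the
groups `H^j(Z)`, or the transcendental part of `H^2` if `Z` is a surface with `H^1 = 0`), and let the
`T_i` be unrelated to each other and to the `G_j`. A representation `Q` is unrelated to `T` in each of
the following cases (`Unrelated`).

* For some element `g` of `Γ`, some additive function `θ` on the multiplicative group of the
  coefficients and some `k` the part of degree `k` of the Lie algebra of the orthogonal or symplectic
  group of `Q` has a smaller dimension than the corresponding part for `T` (`Smaller`). The grading is
  given by the values of `θ` at the eigenvalues of `g`. For `θ = 0` this compares the dimensions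
  `d (d - ε) / 2` of the groups (second part of the result), for a `p`-adic valuation it compares
  numbers of pairs of Frobenius slopes.
* `Q` is potentially abelian.
* `Q` has big monodromy, and for some `g`, `θ` and `k` the part of degree `k` for `Q` has a larger
  dimension than the part for `T`.
* `Q` has big monodromy, the same dimension (not eight in the orthogonal case, because of triality)
  and the same sign as `T`, and `Q` and `T` are not isomorphic up to scalars (`Proportional`).

**Result.** Let `Y` be the product of `Z` with arbitrary powers of the `X_i` (for `X_i` of even
dimension: with less factors than the dimension of `T_i`). Then the conjecture D holds for `Y` if and
only if it holds for `Z`. In particular (`Z` a point) it holds for all products of powers of the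
`X_i`, and if it holds for `Z`, for instance for a surface or an abelian variety in characteristic
zero of small cohomology, it holds for all products of `Z` with powers of the `X_i`.

Neither the Lefschetz nor the Hodge standard conjecture nor the hard Lefschetz theorem is assumed,
no standard conjecture is assumed for `Z`, and there is no condition on places of bad reduction or on
elements which act trivially on the other factors, as in the theorem on varieties with a nodal
reduction.

The proof: every algebraic class on the product is semi-invariant under a subgroup of finite index.
By the Goursat argument for the Lie algebras of the families of skew operators which respect all
semi-invariant multilinear forms (see `Pool.Agent.H802T`), the symplectic or orthogonal Lie algebra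
of `T_i` kills all equivariant multilinear maps from `T_i` to the cohomology of the other factors. By
the first fundamental theorem the coordinates of the algebraic classes in `T_i` are combinations of
products of the form on pairs of variables. The contraction of a numerically trivial algebraic class
with an algebraic class of the power of `X_i` is an algebraic class on the remaining factor which is
numerically trivial, so it is zero. The algebraic classes on the power include all the products of
transcendental parts of diagonals and of algebraic classes of the factors. In a basis of `T_i` with
a rational orthogonal Gram matrix (an orthonormal or symplectic basis) the products of the form are
rational functions of the indices, and their scalar products with the coordinates vanish. A rational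
function in the span of the products with this property is zero by the positivity of sums of
squares; applying rational functionals of the coefficient field this implies that all the
coordinates vanish. So the positivity which is needed comes from the invariant theory of the
monodromy group and not from the Hodge index theorem.
-/

universe u

namespace Pool.Agent.Results.MP_f569db_ag.UnrelatedMonodromy

open Pool.Agent.H914 Pool.Agent.H281R3.HT Pool.Agent.TH125.Gal Pool.Agent.H802T

/-- **The conjecture D for products with powers of varieties with big and unrelated monodromy.** -/
theorem result {k : Type u} [Field k] {𝒱 : VarClass k} {ops : CycleOps 𝒱}
    (W : WeilCohomology.{u, 0} ops) [IsAlgClosed W.K] {Γ : Type} [Group Γ] (χ : Γ →* W.Kˣ) :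
    (∀ {ι N : Type} [Finite ι] [Finite N] (X : ι → GVar W Γ) (T : ι → PRep W.K Γ)
      (G : N → PRep W.K Γ) (Z : GVar W Γ), Independent χ X T G → GeneratedBy G Z →
        (∀ S Y, Tower X T Z S Y → IsGaloisAct χ (W.gr Y.X) Y.X.dim (W.tr Y.X) (algClasses W Y.X)
          Y.act) → ∀ S Y, Tower X T Z S Y → (HomEqNum W Y.X ↔ HomEqNum W Z.X)) ∧
    ∀ Q P : PRep W.K Γ, Q.size < P.size → Smaller Q P :=
  ⟨fun _ _ _ _ h hZ hgal _ _ hY => homEqNum_towers h hZ hgal hY, fun _ _ h => smaller_of_size h⟩

end Pool.Agent.Results.MP_f569db_ag.UnrelatedMonodromy
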